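import Pool.Agent.H21.HV.Defs

/-!
# Project HV, parts BIP and REG
-/

set_option autoImplicit false
open Classical Finset

namespace Pool.Agent.H65.HV

open Pool.Agent.H21.HV

/-- two numbers of a window of length `n` with the same residue are equal -/
theorem BIP_window (n S j j' : ℕ) (h1 : S ≤ j) (h2 : j < S + n) (h3 : S ≤ j') (h4 : j' < S + n)
    (h : j % n = j' % n) : j = j' := by
  rcases Nat.le_total j j' with hle | hle
  · have h5 : n ∣ j' - j := (Nat.modEq_iff_dvd' hle).1 h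
    have h6 := Nat.eq_zero_of_dvd_of_lt h5 (by omega)
    omega
  · have h5 : n ∣ j - j' := (Nat.modEq_iff_dvd' hle).1 h.symm
    have h6 := Nat.eq_zero_of_dvd_of_lt h5 (by omega)
    omega

theorem BIP_ind {X : Type} (Q : Finset X) (n : ℕ) (ι : X → ℕ) (g : ℕ → X) (d : X → ℕ)
    (hιi : ∀ x ∈ Q, ∀ y ∈ Q, ι x = ι y → x = y) (hn : 0 < n)
    (hg : ∀ r, r < n → g r ∈ Q ∧ ι (g r) = r) (P : Finset X) :
    (∀ x ∈ P, d x ≤ n) → ∃ N : X → X → Prop, (∀ x ∈ P, (Q.filter (fun y => N x y)).card = d x) ∧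
      ∀ y ∈ Q, (P.filter (fun x => N x y)).card =
        ((range (∑ x ∈ P, d x)).filter (fun j => j % n = ι y)).card := by
  induction P using Finset.induction_on with
  | empty =>
    intro _
    exact ⟨fun _ _ => False, by simp, by simp⟩
  | insert x P hxP ih =>
    intro hd
    obtain ⟨N, h1, h2⟩ := ih (fun u hu => hd u (Finset.mem_insert_of_mem hu))
    have hdx : d x ≤ n := hd x (Finset.mem_insert_self x P)
    obtain ⟨S, hS⟩ : ∃ S, S = ∑ x ∈ P, d x := ⟨_, rfl⟩
    rw [← hS] at h2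
    obtain ⟨N', hN1, hN2⟩ : ∃ N' : X → X → Prop,
        (∀ v, N' x v ↔ ∃ j, S ≤ j ∧ j < S + d x ∧ j % n = ι v) ∧
        ∀ u v, u ≠ x → (N' u v ↔ N u v) :=
      ⟨fun u v => if u = x then ∃ j, S ≤ j ∧ j < S + d x ∧ j % n = ι v else N u v,
        fun v => by simp, fun u v h => by simp [h]⟩
    refine ⟨N', ?_, ?_⟩
    · intro u hu
      by_cases hux : u = x
      · subst hux
        simp only [hN1]
        have : (Finset.Ico S (S + d u)).card =
            (Q.filter (fun y => ∃ j, S ≤ j ∧ j < S + d u ∧ j % n = ι y)).card := by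
          apply Finset.card_bij (fun j _ => g (j % n))
          · intro j hj
            rw [Finset.mem_Ico] at hj
            have hg' := hg (j % n) (Nat.mod_lt j hn)
            rw [Finset.mem_filter]
            exact ⟨hg'.1, j, hj.1, hj.2, hg'.2.symm⟩
          · intro j hj j' hj' hjj
            rw [Finset.mem_Ico] at hj hj'
            have e1 := (hg (j % n) (Nat.mod_lt j hn)).2
            have e2 := (hg (j' % n) (Nat.mod_lt j' hn)).2
            rw [hjj] at e1
            exact BIP_window n S j j' hj.1 (by omega) hj'.1 (by omega) (e1.symm.trans e2)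
          · intro y hy
            rw [Finset.mem_filter] at hy
            obtain ⟨hyQ, j, hj1, hj2, hj3⟩ := hy
            refine ⟨j, Finset.mem_Ico.2 ⟨hj1, hj2⟩, ?_⟩
            have hg' := hg (j % n) (Nat.mod_lt j hn)
            exact hιi _ hg'.1 _ hyQ (hg'.2.trans hj3)
        rw [← this, Nat.card_Ico]
        omega
      · rw [← h1 u (Finset.mem_of_mem_insert_of_ne hu hux)]
        congr 1
        ext v
        rw [Finset.mem_filter, Finset.mem_filter, hN2 u v hux]
    · intro y hy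
      rw [Finset.sum_insert hxP, ← hS, Nat.add_comm (d x) S]
      have hsplit : ((range (S + d x)).filter (fun j => j % n = ι y)).card =
          ((range S).filter (fun j => j % n = ι y)).card +
          ((Finset.Ico S (S + d x)).filter (fun j => j % n = ι y)).card := by
        rw [← Finset.card_union_of_disjoint, ← Finset.filter_union]
        · congr 2
          ext j
          simp only [Finset.mem_range, Finset.mem_union, Finset.mem_Ico]
          omega
        · rw [Finset.disjoint_left]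
          intro j hj hj'
          rw [Finset.mem_filter, Finset.mem_range] at hj
          rw [Finset.mem_filter, Finset.mem_Ico] at hj'
          omega
      rw [hsplit, ← h2 y hy]
      have hP : ∀ u ∈ P, u ≠ x := by
        rintro u hu rfl
        exact hxP hu
      have hPf : P.filter (fun u => N' u y) = P.filter (fun u => N u y) := by
        ext u
        rw [Finset.mem_filter, Finset.mem_filter]
        exact and_congr_right (fun hu => hN2 u y (hP u hu))
      rw [Finset.filter_insert, hPf]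
      by_cases hex : ∃ j, S ≤ j ∧ j < S + d x ∧ j % n = ι y
      · rw [if_pos ((hN1 y).2 hex), Finset.card_insert_of_notMem]
        · congr 1
          symm
          obtain ⟨j, hj1, hj2, hj3⟩ := hex
          rw [Finset.card_eq_one]
          refine ⟨j, ?_⟩
          ext j'
          rw [Finset.mem_filter, Finset.mem_Ico, Finset.mem_singleton]
          constructor
          · rintro ⟨⟨h3, h4⟩, h5⟩
            exact BIP_window n S j' j h3 (by omega) hj1 (by omega) (h5.trans hj3.symm)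
          · rintro rfl
            exact ⟨⟨hj1, hj2⟩, hj3⟩
        · rw [Finset.mem_filter]
          exact fun h => hxP h.1
      · rw [if_neg (fun h => hex ((hN1 y).1 h))]
        have : (Finset.Ico S (S + d x)).filter (fun j => j % n = ι y) = ∅ := by
          rw [Finset.filter_eq_empty_iff]
          intro j hj hj'
          rw [Finset.mem_Ico] at hj
          exact hex ⟨j, hj.1, hj.2, hj'⟩
        rw [this, Finset.card_empty, Nat.add_zero]

theorem BIP_count (T n r : ℕ) (hn : 0 < n) (hr : r < n) :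
    ((range T).filter (fun j => j % n = r)).card = T / n + if r < T % n then 1 else 0 := by
  have h1 := Nat.count_modEq_card T hn r
  rw [Nat.count_eq_card_filter_range] at h1
  rw [Nat.mod_eq_of_lt hr] at h1
  rw [← h1]
  congr 1
  ext j
  simp only [Finset.mem_filter, Nat.ModEq, Nat.mod_eq_of_lt hr]

theorem t_BIP : S_BIP := by
  intro X P Q d hPQ hne hd
  obtain ⟨x0, hx0⟩ := hne
  have hn : 0 < Q.card := Finset.card_pos.2 ⟨x0, hx0⟩
  obtain ⟨ι, hι⟩ : ∃ ι : X → ℕ, ∀ (y : X) (h : y ∈ Q), ι y = (Q.equivFin ⟨y, h⟩).val :=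
    ⟨fun y => if h : y ∈ Q then (Q.equivFin ⟨y, h⟩).val else 0, fun y h => by simp [h]⟩
  obtain ⟨g, hg⟩ : ∃ g : ℕ → X, ∀ (r : ℕ) (h : r < Q.card), g r = (Q.equivFin.symm ⟨r, h⟩).val :=
    ⟨fun r => if h : r < Q.card then (Q.equivFin.symm ⟨r, h⟩).val else x0,
      fun r h => by simp [h]⟩
  have hιn : ∀ y ∈ Q, ι y < Q.card := by
    intro y hy
    rw [hι y hy]
    exact (Q.equivFin ⟨y, hy⟩).isLt
  have hιi : ∀ x ∈ Q, ∀ y ∈ Q, ι x = ι y → x = y := by
    intro x hx y hy hxy
    rw [hι x hx, hι y hy] at hxy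
    have := Q.equivFin.injective (Fin.ext hxy)
    exact congrArg Subtype.val this
  have hg' : ∀ r, r < Q.card → g r ∈ Q ∧ ι (g r) = r := by
    intro r hr
    have h1 : g r ∈ Q := by
      rw [hg r hr]
      exact (Q.equivFin.symm ⟨r, hr⟩).2
    refine ⟨h1, ?_⟩
    rw [hι (g r) h1]
    have h2 : (⟨g r, h1⟩ : Q) = Q.equivFin.symm ⟨r, hr⟩ := Subtype.ext (hg r hr)
    rw [h2, Equiv.apply_symm_apply]
  obtain ⟨N, h1, h2⟩ := BIP_ind Q Q.card ι g d hιi hn hg' P hd
  obtain ⟨B, hB⟩ : ∃ B : SimpleGraph X, ∀ x y, B.Adj x y ↔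
      ((x ∈ P ∧ y ∈ Q ∧ N x y) ∨ (x ∈ Q ∧ y ∈ P ∧ N y x)) := by
    refine ⟨⟨fun x y => (x ∈ P ∧ y ∈ Q ∧ N x y) ∨ (x ∈ Q ∧ y ∈ P ∧ N y x), ?_, ?_⟩,
      fun x y => Iff.rfl⟩
    · refine ⟨?_⟩
      rintro x y (h | h)
      · exact Or.inr ⟨h.2.1, h.1, h.2.2⟩
      · exact Or.inl ⟨h.2.1, h.1, h.2.2⟩
    · refine ⟨fun x h => ?_⟩
      rcases h with h | h
      · exact Finset.disjoint_left.1 hPQ h.1 h.2.1
      · exact Finset.disjoint_left.1 hPQ h.2.1 h.1
  refine ⟨B, ?_, ?_, ?_⟩
  · intro x y h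
    rcases (hB x y).1 h with h | h
    · exact Or.inl ⟨h.1, h.2.1⟩
    · exact Or.inr ⟨h.1, h.2.1⟩
  · intro x hx
    rw [← h1 x hx]
    unfold nb
    congr 1
    ext y
    rw [Finset.mem_filter, Finset.mem_filter, hB]
    constructor
    · rintro ⟨hy, h | h⟩
      · exact ⟨hy, h.2.2⟩
      · exact absurd h.1 (Finset.disjoint_left.1 hPQ hx)
    · rintro ⟨hy, h⟩
      exact ⟨hy, Or.inl ⟨hx, hy, h⟩⟩
  · intro y hy
    have h3 := h2 y hy
    rw [BIP_count _ _ _ hn (hιn y hy)] at h3
    have h4 : nb B P y = (P.filter (fun x => N x y)).card := by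
      unfold nb
      congr 1
      ext x
      rw [Finset.mem_filter, Finset.mem_filter, hB]
      constructor
      · rintro ⟨hx, h | h⟩
        · exact absurd hy (Finset.disjoint_left.1 hPQ h.1)
        · exact ⟨hx, h.2.2⟩
      · rintro ⟨hx, h⟩
        exact ⟨hx, Or.inr ⟨hy, hx, h⟩⟩
    rw [h4, h3]
    split_ifs with h
    · right
      refine ⟨rfl, ?_⟩
      intro hdv
      have := Nat.mod_eq_zero_of_dvd hdv
      omega
    · left
      rfl

/-! ### REG -/

theorem REG_set (n a : ℕ) (hn : Even n) (ha : a < n) :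
    ∃ C : Finset ℕ, (∀ v ∈ C, 1 ≤ v ∧ v < n ∧ n - v ∈ C) ∧ C.card = a := by
  obtain ⟨m, hm⟩ := hn
  obtain ⟨h, hh⟩ : ∃ h, h = a / 2 := ⟨_, rfl⟩
  have h1 : (Finset.Ico 1 (h + 1) ∪ Finset.Ico (n - h) n).card = 2 * h := by
    rw [Finset.card_union_of_disjoint, Nat.card_Ico, Nat.card_Ico]
    · omega
    · rw [Finset.disjoint_left]
      intro v hv hv'
      rw [Finset.mem_Ico] at hv hv'
      omega
  rcases Nat.even_or_odd a with he | ho
  · obtain ⟨b, hb⟩ := he
    refine ⟨Finset.Ico 1 (h + 1) ∪ Finset.Ico (n - h) n, ?_, ?_⟩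
    · intro v hv
      simp only [Finset.mem_union, Finset.mem_Ico] at hv ⊢
      omega
    · rw [h1]
      omega
  · obtain ⟨b, hb⟩ := ho
    refine ⟨insert m (Finset.Ico 1 (h + 1) ∪ Finset.Ico (n - h) n), ?_, ?_⟩
    · intro v hv
      simp only [Finset.mem_union, Finset.mem_Ico, Finset.mem_insert] at hv ⊢
      omega
    · rw [Finset.card_insert_of_notMem, h1]
      · omega
      · simp only [Finset.mem_union, Finset.mem_Ico]
        omega

theorem t_REG : S_REG := by
  intro X P a hev ha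
  obtain ⟨C, hC, hCc⟩ := REG_set P.card a hev ha
  have hn : 0 < P.card := by omega
  obtain ⟨ι, hι⟩ : ∃ ι : X → ℕ, ∀ (y : X) (h : y ∈ P), ι y = (P.equivFin ⟨y, h⟩).val :=
    ⟨fun y => if h : y ∈ P then (P.equivFin ⟨y, h⟩).val else 0, fun y h => by simp [h]⟩
  obtain ⟨x0, hx0⟩ := Finset.card_pos.1 hn
  obtain ⟨g, hg⟩ : ∃ g : ℕ → X, ∀ (r : ℕ) (h : r < P.card), g r = (P.equivFin.symm ⟨r, h⟩).val :=
    ⟨fun r => if h : r < P.card then (P.equivFin.symm ⟨r, h⟩).val else x0,
      fun r h => by simp [h]⟩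
  have hιn : ∀ y ∈ P, ι y < P.card := by
    intro y hy
    rw [hι y hy]
    exact (P.equivFin ⟨y, hy⟩).isLt
  have hιi : ∀ x ∈ P, ∀ y ∈ P, ι x = ι y → x = y := by
    intro x hx y hy hxy
    rw [hι x hx, hι y hy] at hxy
    have := P.equivFin.injective (Fin.ext hxy)
    exact congrArg Subtype.val this
  have hg' : ∀ r, r < P.card → g r ∈ P ∧ ι (g r) = r := by
    intro r hr
    have h1 : g r ∈ P := by
      rw [hg r hr]
      exact (P.equivFin.symm ⟨r, hr⟩).2
    refine ⟨h1, ?_⟩
    rw [hι (g r) h1]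
    have h2 : (⟨g r, h1⟩ : P) = P.equivFin.symm ⟨r, hr⟩ := Subtype.ext (hg r hr)
    rw [h2, Equiv.apply_symm_apply]
  -- adjacency: the difference of the indices is in `C`
  obtain ⟨B, hB⟩ : ∃ B : SimpleGraph X, ∀ x y, B.Adj x y ↔
      (x ∈ P ∧ y ∈ P ∧ ((ι x < ι y ∧ ι y - ι x ∈ C) ∨ (ι y < ι x ∧ ι x - ι y ∈ C))) := by
    refine ⟨⟨fun x y => x ∈ P ∧ y ∈ P ∧ ((ι x < ι y ∧ ι y - ι x ∈ C) ∨
      (ι y < ι x ∧ ι x - ι y ∈ C)), ?_, ?_⟩, fun x y => Iff.rfl⟩
    · refine ⟨?_⟩
      rintro x y ⟨h1, h2, h3⟩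
      exact ⟨h2, h1, h3.symm⟩
    · refine ⟨fun x h => ?_⟩
      rcases h.2.2 with h | h
      · exact lt_irrefl _ h.1
      · exact lt_irrefl _ h.1
  refine ⟨B, fun x y h => ⟨((hB x y).1 h).1, ((hB x y).1 h).2.1⟩, ?_⟩
  intro x hx
  rw [← hCc]
  symm
  unfold nb
  have hxn := hιn x hx
  apply Finset.card_bij (fun v _ => if ι x + v < P.card then g (ι x + v)
    else g (ι x + v - P.card))
  · intro v hv
    obtain ⟨h1, h2, h3⟩ := hC v hv
    rw [Finset.mem_filter, hB]
    by_cases hlt : ι x + v < P.card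
    · rw [if_pos hlt]
      obtain ⟨h4, h5⟩ := hg' _ hlt
      refine ⟨h4, hx, h4, Or.inl ?_⟩
      rw [h5]
      refine ⟨by omega, ?_⟩
      rw [Nat.add_sub_cancel_left]
      exact hv
    · rw [if_neg hlt]
      obtain ⟨h4, h5⟩ := hg' (ι x + v - P.card) (by omega)
      refine ⟨h4, hx, h4, Or.inr ?_⟩
      rw [h5]
      refine ⟨by omega, ?_⟩
      have : ι x - (ι x + v - P.card) = P.card - v := by omega
      rw [this]
      exact h3
  · intro v hv w hw hvw
    obtain ⟨h1, h2, h3⟩ := hC v hv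
    obtain ⟨h1', h2', h3'⟩ := hC w hw
    have hv2 : ∀ v, v < P.card → ι (if ι x + v < P.card then g (ι x + v)
        else g (ι x + v - P.card)) = if ι x + v < P.card then ι x + v
        else ι x + v - P.card := by
      intro v hv
      split_ifs with h
      · exact (hg' _ h).2
      · exact (hg' _ (by omega)).2
    have e1 := hv2 v h2
    have e2 := hv2 w h2'
    rw [hvw, e2] at e1
    split_ifs at e1 <;> omega
  · intro y hy
    rw [Finset.mem_filter, hB] at hy
    obtain ⟨hyP, _, _, h | h⟩ := hy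
    · have h3 := hC _ h.2
      refine ⟨ι y - ι x, h.2, ?_⟩
      have hlt : ι x + (ι y - ι x) < P.card := by
        have := hιn y hyP
        omega
      rw [if_pos hlt]
      obtain ⟨h4, h5⟩ := hg' _ hlt
      apply hιi _ h4 _ hyP
      rw [h5]
      omega
    · have h3 := hC _ h.2
      refine ⟨P.card - (ι x - ι y), h3.2.2, ?_⟩
      have hlt : ¬ ι x + (P.card - (ι x - ι y)) < P.card := by omega
      rw [if_neg hlt]
      obtain ⟨h4, h5⟩ := hg' (ι x + (P.card - (ι x - ι y)) - P.card) (by omega)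
      apply hιi _ h4 _ hyP
      rw [h5]
      omega

end Pool.Agent.H65.HV
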