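import Pool.Agent.H21.HV.Defs

/-!
# Project HV, parts FAM and ASM
-/

set_option autoImplicit false
open Classical Finset

namespace Pool.Agent.H65.HV

open Pool.Agent.H21.HV

theorem t_FAM : S_FAM := by
  intro V _ G θ hθ
  obtain ⟨F, hF⟩ : ∃ F : Finset (Finset (Finset V)), ∀ I, I ∈ F ↔
      ((∀ K ∈ I, θ ≤ K.card ∧ Clq G K) ∧ Dsj I) :=
    ⟨Finset.univ.filter (fun I => (∀ K ∈ I, θ ≤ K.card ∧ Clq G K) ∧ Dsj I),
      fun I => by simp⟩
  have hne : F.Nonempty := by
    refine ⟨∅, (hF ∅).2 ⟨?_, ?_⟩⟩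
    · intro K hK
      exact absurd hK (Finset.notMem_empty K)
    · intro K hK
      exact absurd hK (Finset.notMem_empty K)
  obtain ⟨I, hI, hmax⟩ := Finset.exists_max_image F Finset.card hne
  obtain ⟨h1, h2⟩ := (hF I).1 hI
  refine ⟨I, h1, h2, ?_⟩
  intro Q hQ hQc
  by_contra hcon
  push Not at hcon
  have hQI : Q ∉ I := by
    intro h
    have h3 := hcon Q h
    rw [disjoint_self] at h3
    have h4 : Q = ∅ := h3
    rw [h4, Finset.card_empty] at hQc
    omega
  have h5 : insert Q I ∈ F := by
    rw [hF]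
    constructor
    · intro K hK
      rcases Finset.mem_insert.1 hK with h | h
      · rw [h]
        exact ⟨hQc, hQ⟩
      · exact h1 K h
    · intro K hK K' hK' hne'
      rcases Finset.mem_insert.1 hK with h | h
      · rcases Finset.mem_insert.1 hK' with h' | h'
        · exact absurd (h.trans h'.symm) hne'
        · rw [h]
          exact (hcon K' h').symm
      · rcases Finset.mem_insert.1 hK' with h' | h'
        · rw [h']
          exact hcon K h
        · exact h2 K h K' h' hne'
  have h6 := hmax _ h5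
  rw [Finset.card_insert_of_notMem hQI] at h6
  omega

theorem t_ASM : S_ASM := by
  intro V _ G E1 E2 A B M D p x X e f1 f2 hp hcov hAB hAM hBM hx hX hxA hxB hXM hE hE1B hE2A
    hE12 he heab hea heb hf1 hf2 hz1 hz2
  obtain ⟨f1s, f1b, f1p⟩ := hf1
  obtain ⟨f2s, f2b, f2p⟩ := hf2
  -- vertex labels
  obtain ⟨fV, hA, hB, hM⟩ : ∃ fV : V → ℕ, (∀ v ∈ A, fV v = x v) ∧
      (∀ v ∈ B, fV v = D + 2 * p - 1 - x v) ∧ (∀ v ∈ M, fV v = p + D - X v) := by
    refine ⟨fun v => if v ∈ A then x v else if v ∈ B then D + 2 * p - 1 - x v else p + D - X v,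
      ?_, ?_, ?_⟩
    · intro v hv
      simp only [if_pos hv]
    · intro v hv
      have : v ∉ A := fun h => Finset.disjoint_left.1 hAB h hv
      simp only [if_neg this, if_pos hv]
    · intro v hv
      have h1 : v ∉ A := fun h => Finset.disjoint_left.1 hAM h hv
      have h2 : v ∉ B := fun h => Finset.disjoint_left.1 hBM h hv
      simp only [if_neg h1, if_neg h2]
  -- edge labels
  obtain ⟨F, hFs, hF1, hF2, hF3⟩ : ∃ F : V → V → ℕ, (∀ u v, F u v = F v u) ∧
      (∀ u v, E1.Adj u v → F u v = D + 2 * p - 1 - f1 u v) ∧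
      (∀ u v, E2.Adj u v → F u v = f2 u v) ∧
      (∀ u v, ¬ E1.Adj u v → ¬ E2.Adj u v → F u v = p + e u v) := by
    refine ⟨fun u v => if E1.Adj u v then D + 2 * p - 1 - f1 u v else
      if E2.Adj u v then f2 u v else p + e u v, ?_, ?_, ?_, ?_⟩
    · intro u v
      simp only [E1.adj_comm u v, E2.adj_comm u v, f1s u v, f2s u v, he u v]
    · intro u v h
      simp only [if_pos h]
    · intro u v h
      have : ¬ E1.Adj u v := fun h' => hE12 u v h' h
      simp only [if_neg this, if_pos h]
    · intro u v h h'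
      simp only [if_neg h, if_neg h']
  -- the cases
  have hAB' : ∀ u v, u ∈ A → v ∈ B → ¬ E1.Adj u v ∧ ¬ E2.Adj u v := by
    intro u v hu hv
    exact ⟨fun h => hE1B v u h.symm hv, fun h => hE2A u v h hu⟩
  have hBA' : ∀ u v, u ∈ B → v ∈ A → ¬ E1.Adj u v ∧ ¬ E2.Adj u v := by
    intro u v hu hv
    exact ⟨fun h => hE1B u v h hu, fun h => hE2A v u h.symm hv⟩
  have hcase : ∀ u v, G.Adj u v →
      (E1.Adj u v ∧ F u v = D + 2 * p - 1 - f1 u v ∧ f1 u v < p) ∨
      (E2.Adj u v ∧ F u v = f2 u v ∧ f2 u v < p) ∨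
      (u ∈ A ∧ v ∈ B ∧ F u v = p + e u v ∧ x u ≤ e u v ∧ e u v + x v + 1 ≤ D) ∨
      (u ∈ B ∧ v ∈ A ∧ F u v = p + e u v ∧ x v ≤ e u v ∧ e u v + x u + 1 ≤ D) := by
    intro u v h
    rcases hE u v h with h1 | h1 | h1 | h1
    · exact Or.inl ⟨h1, hF1 u v h1, f1b u v h1⟩
    · exact Or.inr (Or.inl ⟨h1, hF2 u v h1, f2b u v h1⟩)
    · have h2 := hAB' u v h1.1 h1.2
      have h3 := heab u h1.1 v h1.2 h
      exact Or.inr (Or.inr (Or.inl ⟨h1.1, h1.2, hF3 u v h2.1 h2.2, h3.1, h3.2⟩))
    · have h2 := hBA' u v h1.1 h1.2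
      have h3 := heab v h1.2 u h1.1 h.symm
      rw [he v u] at h3
      exact Or.inr (Or.inr (Or.inr ⟨h1.1, h1.2, hF3 u v h2.1 h2.2, h3.1, h3.2⟩))
  refine ⟨fV, Sym2.lift ⟨F, hFs⟩, ?_, ?_, ?_, ?_, ?_⟩
  · intro v
    rcases hcov v with h | h | h
    · rw [hA v h]
      have := hx v
      omega
    · rw [hB v h]
      omega
    · rw [hM v h]
      have := hX v h
      omega
  · intro s hs
    induction s using Sym2.ind with
    | _ u v =>
      rw [SimpleGraph.mem_edgeSet] at hs
      rw [Sym2.lift_mk]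
      simp only
      have := hcase u v hs
      omega
  · intro u v huv
    have h1 := hx u
    have h2 := hx v
    rcases hcov u with hu | hu | hu <;> rcases hcov v with hv | hv | hv
    · rw [hA u hu, hA v hv]
      exact hxA u hu v hv huv
    · rw [hA u hu, hB v hv]
      omega
    · rw [hA u hu, hM v hv]
      have := hX v hv
      omega
    · rw [hB u hu, hA v hv]
      omega
    · rw [hB u hu, hB v hv]
      have := hxB u hu v hv huv
      omega
    · rw [hB u hu, hM v hv]
      have := hX v hv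
      omega
    · rw [hM u hu, hA v hv]
      have := hX u hu
      omega
    · rw [hM u hu, hB v hv]
      have := hX u hu
      omega
    · rw [hM u hu, hM v hv]
      have h3 := hX u hu
      have h4 := hX v hv
      have := hXM u hu v hv huv
      omega
  · intro u v w huv huw hvw
    rw [Sym2.lift_mk, Sym2.lift_mk]
    simp only
    rcases hcase u v huv with h | h | h | h <;> rcases hcase u w huw with h' | h' | h' | h'
    · have := f1p u v w h.1 h'.1 hvw
      omega
    · omega
    · omega
    · omega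
    · omega
    · have := f2p u v w h.1 h'.1 hvw
      omega
    · omega
    · omega
    · omega
    · omega
    · have := hea u h.1 v h.2.1 w h'.2.1 huv huw hvw
      omega
    · exact absurd h'.1 (Finset.disjoint_left.1 hAB h.1)
    · omega
    · omega
    · exact absurd h.1 (Finset.disjoint_left.1 hAB h'.1)
    · have := heb u h.1 v h.2.1 w h'.2.1 huv huw hvw
      omega
  · intro u v huv
    rw [Sym2.lift_mk]
    simp only
    have hxu := hx u
    rcases hcase u v huv with h | h | h | h
    · rcases hcov u with hu | hu | hu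
      · rw [hA u hu]
        have : (p : ℤ) ≤ -((x u : ℤ) - (F u v : ℤ)) := by omega
        exact le_trans this (neg_le_abs _)
      · exact absurd hu (hE1B u v h.1)
      · rw [hM u hu]
        have h1 := hX u hu
        have h2 := hz1 u hu v h.1
        have : (p : ℤ) ≤ -(((p + D - X u : ℕ) : ℤ) - (F u v : ℤ)) := by omega
        exact le_trans this (neg_le_abs _)
    · rcases hcov u with hu | hu | hu
      · exact absurd hu (hE2A u v h.1)
      · rw [hB u hu]
        have : (p : ℤ) ≤ (((D + 2 * p - 1 - x u : ℕ) : ℤ) - (F u v : ℤ)) := by omega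
        exact le_trans this (le_abs_self _)
      · rw [hM u hu]
        have h1 := hX u hu
        have h2 := hz2 u hu v h.1
        have : (p : ℤ) ≤ (((p + D - X u : ℕ) : ℤ) - (F u v : ℤ)) := by omega
        exact le_trans this (le_abs_self _)
    · rw [hA u h.1]
      have : (p : ℤ) ≤ -((x u : ℤ) - (F u v : ℤ)) := by omega
      exact le_trans this (neg_le_abs _)
    · rw [hB u h.1]
      have : (p : ℤ) ≤ (((D + 2 * p - 1 - x u : ℕ) : ℤ) - (F u v : ℤ)) := by omega
      exact le_trans this (le_abs_self _)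

end Pool.Agent.H65.HV
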