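import Pool.Agent.H21.HV.Defs

/-!
# Project HV, part TGR: graphs with nearly prescribed degrees
-/

set_option autoImplicit false
open Classical Finset

namespace Pool.Agent.H65.HV

open Pool.Agent.H21.HV

/-- counting through a bijection onto `range n` -/
theorem TGR_card_img {X : Type} (M : Finset X) (n : ℕ) (ρ : X → ℕ) (hM : M.card = n)
    (hlt : ∀ z ∈ M, ρ z < n) (hinj : ∀ z ∈ M, ∀ z' ∈ M, ρ z = ρ z' → z = z') (p : ℕ → Prop)
    [i1 : DecidablePred p] [i2 : DecidablePred (fun z => p (ρ z))] :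
    (M.filter (fun z => p (ρ z))).card = ((range n).filter p).card := by
  have himg : M.image ρ = range n := by
    apply Finset.eq_of_subset_of_card_le
    · intro x hx
      obtain ⟨z, hz, rfl⟩ := Finset.mem_image.1 hx
      exact Finset.mem_range.2 (hlt z hz)
    · rw [Finset.card_image_of_injOn (fun a ha b hb hab => hinj a ha b hb hab), hM,
        Finset.card_range]
  apply Finset.card_bij (fun z _ => ρ z)
  · intro z hz
    rw [Finset.mem_filter] at hz ⊢
    exact ⟨Finset.mem_range.2 (hlt z hz.1), hz.2⟩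
  · intro a ha b hb hab
    exact hinj a (Finset.mem_filter.1 ha).1 b (Finset.mem_filter.1 hb).1 hab
  · intro b hb
    rw [Finset.mem_filter, ← himg, Finset.mem_image] at hb
    obtain ⟨⟨z, hz, rfl⟩, hp⟩ := hb
    exact ⟨z, Finset.mem_filter.2 ⟨hz, hp⟩, rfl⟩

theorem TGR_div_iff (s i r : ℕ) (hs : 0 < s) : r / s = i ↔ i * s ≤ r ∧ r < (i + 1) * s := by
  constructor
  · rintro rfl
    refine ⟨Nat.div_mul_le_self r s, ?_⟩
    have := Nat.lt_mul_div_succ r hs
    rw [Nat.mul_comm]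
    exact this
  · rintro ⟨h1, h2⟩
    exact Nat.div_eq_of_lt_le h1 h2

theorem TGR_quart (s i : ℕ) (hs : 0 < s) (hi : i < 4) :
    ((range (4 * s)).filter (fun r => r / s = i)).card = s := by
  have : (range (4 * s)).filter (fun r => r / s = i) = Finset.Ico (i * s) ((i + 1) * s) := by
    ext r
    simp only [Finset.mem_filter, Finset.mem_range, Finset.mem_Ico]
    rw [TGR_div_iff s i r hs]
    constructor
    · exact fun h => h.2
    · intro h
      refine ⟨lt_of_lt_of_le h.2 ?_, h⟩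
      exact Nat.mul_le_mul_right s (by omega)
  rw [this, Nat.card_Ico, Nat.add_mul, Nat.one_mul]
  omega

theorem TGR_T0deg (n r0 : ℕ) (h : r0 < n) :
    ((range n).filter (fun r => n ≤ r0 + r + 1)).card = r0 + 1 := by
  have : (range n).filter (fun r => n ≤ r0 + r + 1) = Finset.Ico (n - 1 - r0) n := by
    ext r
    simp only [Finset.mem_filter, Finset.mem_range, Finset.mem_Ico]
    omega
  rw [this, Nat.card_Ico]
  omega

theorem TGR_nb_sum {X : Type} (G : SimpleGraph X) (S : Finset X) (v : X) :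
    nb G S v = ∑ u ∈ S, if G.Adj v u then 1 else 0 := by
  unfold nb
  rw [Finset.card_filter]

theorem TGR_nb_restr {X : Type} (B : SimpleGraph X) (M Q : Finset X) (v : X) (hQ : Q ⊆ M)
    (h : ∀ u, B.Adj v u → u ∈ Q) : nb B M v = nb B Q v := by
  unfold nb
  congr 1
  ext u
  simp only [Finset.mem_filter]
  exact ⟨fun h' => ⟨h u h'.2, h'.2⟩, fun h' => ⟨hQ h'.1, h'.2⟩⟩

theorem TGR_nb_zero {X : Type} (B : SimpleGraph X) (M : Finset X) (v : X)
    (h : ∀ u, ¬ B.Adj v u) : nb B M v = 0 := by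
  unfold nb
  rw [Finset.card_eq_zero, Finset.filter_eq_empty_iff]
  intro u _
  exact h u

theorem TGR_bip (hB : S_BIP) {X : Type} (M P Q : Finset X) (d : X → ℕ) (hPM : P ⊆ M)
    (hQM : Q ⊆ M) (hPQ : Disjoint P Q) (s : ℕ) (hs : 0 < s) (hQ : Q.card = s)
    (hd : ∀ x ∈ P, d x ≤ s) :
    ∃ B : SimpleGraph X, (∀ x y, B.Adj x y → (x ∈ P ∧ y ∈ Q) ∨ (x ∈ Q ∧ y ∈ P)) ∧
      (∀ x ∈ P, nb B M x = d x) ∧
      (∀ y ∈ Q, nb B M y = (∑ x ∈ P, d x) / s ∨
        (nb B M y = (∑ x ∈ P, d x) / s + 1 ∧ ¬ s ∣ ∑ x ∈ P, d x)) ∧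
      ∀ x, x ∉ P → x ∉ Q → nb B M x = 0 := by
  have hne : Q.Nonempty := by
    rw [← Finset.card_pos, hQ]; exact hs
  obtain ⟨B, h1, h2, h3⟩ := hB X P Q d hPQ hne (by rw [hQ]; exact hd)
  refine ⟨B, h1, ?_, ?_, ?_⟩
  · intro x hx
    rw [TGR_nb_restr B M Q x hQM, h2 x hx]
    intro u hu
    rcases h1 x u hu with h | h
    · exact h.2
    · exact absurd h.1 (Finset.disjoint_left.1 hPQ hx)
  · intro y hy
    rw [TGR_nb_restr B M P y hPM]
    · have := h3 y hy
      rw [hQ] at this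
      exact this
    · intro u hu
      rcases h1 y u hu with h | h
      · exact absurd hy (Finset.disjoint_left.1 hPQ h.1)
      · exact h.2
  · intro x hx hx'
    apply TGR_nb_zero
    intro u hu
    rcases h1 x u hu with h | h
    · exact hx h.1
    · exact hx' h.1

theorem TGR_reg (hR : S_REG) {X : Type} (M P : Finset X) (a : ℕ) (hPM : P ⊆ M)
    (hev : Even P.card) (ha : a < P.card) :
    ∃ B : SimpleGraph X, (∀ x y, B.Adj x y → x ∈ P ∧ y ∈ P) ∧ (∀ x ∈ P, nb B M x = a) ∧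
      ∀ x, x ∉ P → nb B M x = 0 := by
  obtain ⟨B, h1, h2⟩ := hR X P a hev ha
  refine ⟨B, h1, ?_, ?_⟩
  · intro x hx
    rw [TGR_nb_restr B M P x hPM (fun u hu => (h1 x u hu).2), h2 x hx]
  · intro x hx
    exact TGR_nb_zero B M x (fun u hu => hx (h1 x u hu).1)

theorem TGR_le (S s m e : ℕ) (hs : 0 < s) (h : S ≤ s * m)
    (he : e = S / s ∨ (e = S / s + 1 ∧ ¬ s ∣ S)) : e ≤ m := by
  have h1 : S / s ≤ m := Nat.div_le_of_le_mul h
  rcases he with he | ⟨he, hn⟩
  · omega
  · rcases Nat.lt_or_ge (S / s) m with h2 | h2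
    · omega
    · exfalso
      apply hn
      have h3 : S / s = m := le_antisymm h1 h2
      have h4 : s * (S / s) ≤ S := Nat.mul_div_le S s
      rw [h3] at h4
      exact ⟨m, le_antisymm h h4⟩

theorem TGR_ind (a b c t p q r : Prop) (ha : a → t) (hb : b → t) (hc : c → t)
    (hab : ¬ (a ∧ b)) (hac : ¬ (a ∧ c)) (hbc : ¬ (b ∧ c)) (hp : p → ¬ t) (hq : q → ¬ t)
    (hr : r → ¬ t) (hpq : ¬ (p ∧ q)) (hpr : ¬ (p ∧ r)) (hqr : ¬ (q ∧ r)) :
    ((if (t ∧ ¬ a ∧ ¬ b ∧ ¬ c) ∨ p ∨ q ∨ r then 1 else 0) + ((if a then 1 else 0) +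
      (if b then 1 else 0) + (if c then 1 else 0)) : ℕ) = (if t then 1 else 0) +
      ((if p then 1 else 0) + (if q then 1 else 0) + (if r then 1 else 0)) := by
  by_cases a <;> by_cases b <;> by_cases c <;> by_cases t <;> by_cases p <;> by_cases q <;>
    by_cases r <;> simp_all

theorem t_TGR (hB : S_BIP) (hR : S_REG) : S_TGR := by
  intro X M s t ρ δ hev hts hM hlt hinj hδ hmono hneg hpos
  have hs : 0 < s := by omega
  obtain ⟨Q, hQ⟩ : ∃ Q : ℕ → Finset X, ∀ i, Q i = M.filter (fun z => ρ z / s = i) :=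
    ⟨_, fun i => rfl⟩
  have hQm : ∀ i z, z ∈ Q i ↔ z ∈ M ∧ ρ z / s = i := by
    intro i z
    rw [hQ i, Finset.mem_filter]
  have hQM : ∀ i, Q i ⊆ M := fun i z hz => ((hQm i z).1 hz).1
  have hQc : ∀ i, i < 4 → (Q i).card = s := by
    intro i hi
    rw [hQ i, TGR_card_img M (4 * s) ρ hM hlt hinj (fun r => r / s = i)]
    exact TGR_quart s i hs hi
  have hQd : ∀ i j, i ≠ j → Disjoint (Q i) (Q j) := by
    intro i j hij
    rw [Finset.disjoint_left]
    intro z hz hz'
    exact hij (((hQm i z).1 hz).2.symm.trans ((hQm j z).1 hz').2)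
  have hcls : ∀ z ∈ M, ρ z / s < 4 := by
    intro z hz
    exact Nat.div_lt_of_lt_mul (by rw [Nat.mul_comm]; exact hlt z hz)
  obtain ⟨D, hD⟩ : ∃ D : X → ℕ, ∀ z, D z = (δ z).natAbs := ⟨_, fun z => rfl⟩
  have hDt : ∀ z ∈ M, D z ≤ t := by
    intro z hz
    have := hδ z hz
    rw [hD z]
    have h2 : ((δ z).natAbs : ℤ) = |δ z| := Int.natCast_natAbs (δ z)
    omega
  have hDneg : ∀ z ∈ M, ρ z < 2 * s → (D z : ℤ) = - δ z := by
    intro z hz h
    have := hneg z hz h
    rw [hD z]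
    omega
  have hDpos : ∀ z ∈ M, 2 * s ≤ ρ z → (D z : ℤ) = δ z := by
    intro z hz h
    have := hpos z hz h
    rw [hD z]
    omega
  have hk : ∀ i z, z ∈ Q i → i * s ≤ ρ z ∧ ρ z < (i + 1) * s := by
    intro i z hz
    exact (TGR_div_iff s i (ρ z) hs).1 ((hQm i z).1 hz).2
  -- the six modifications
  obtain ⟨R34, a34, b34, c34, d34⟩ := TGR_bip hB M (Q 2) (Q 3) D (hQM 2) (hQM 3)
    (hQd 2 3 (by norm_num)) s hs (hQc 3 (by norm_num))
    (fun x hx => le_trans (hDt x (hQM 2 hx)) hts.le)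
  have e34 : ∀ w ∈ Q 3, nb R34 M w ≤ D w := by
    intro w hw
    refine TGR_le _ s (D w) _ hs ?_ (c34 w hw)
    have : ∑ x ∈ Q 2, D x ≤ (Q 2).card • D w := by
      apply Finset.sum_le_card_nsmul
      intro x hx
      have h1 := hDpos x (hQM 2 hx) (by have := hk 2 x hx; omega)
      have h2 := hDpos w (hQM 3 hw) (by have := hk 3 w hw; omega)
      have h3 := hmono x (hQM 2 hx) w (hQM 3 hw)
        (by rw [((hQm 2 x).1 hx).2, ((hQm 3 w).1 hw).2]; norm_num)
      omega
    rw [hQc 2 (by norm_num), smul_eq_mul] at this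
    exact this
  obtain ⟨R42, a42, b42, c42, d42⟩ := TGR_bip hB M (Q 3) (Q 1) (fun w => D w - nb R34 M w)
    (hQM 3) (hQM 1) (hQd 3 1 (by norm_num)) s hs (hQc 1 (by norm_num))
    (fun x hx => le_trans (Nat.sub_le _ _) (le_trans (hDt x (hQM 3 hx)) hts.le))
  obtain ⟨A21, a21, b21, c21, d21⟩ := TGR_bip hB M (Q 1) (Q 0) D (hQM 1) (hQM 0)
    (hQd 1 0 (by norm_num)) s hs (hQc 0 (by norm_num))
    (fun x hx => le_trans (hDt x (hQM 1 hx)) hts.le)
  have e21 : ∀ v ∈ Q 0, nb A21 M v ≤ D v := by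
    intro w hw
    refine TGR_le _ s (D w) _ hs ?_ (c21 w hw)
    have : ∑ x ∈ Q 1, D x ≤ (Q 1).card • D w := by
      apply Finset.sum_le_card_nsmul
      intro x hx
      have h1 := hDneg x (hQM 1 hx) (by have := hk 1 x hx; omega)
      have h2 := hDneg w (hQM 0 hw) (by have := hk 0 w hw; omega)
      have h3 := hmono w (hQM 0 hw) x (hQM 1 hx)
        (by rw [((hQm 1 x).1 hx).2, ((hQm 0 w).1 hw).2]; norm_num)
      omega
    rw [hQc 1 (by norm_num), smul_eq_mul] at this
    exact this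
  obtain ⟨A13, a13, b13, c13, d13⟩ := TGR_bip hB M (Q 0) (Q 2) (fun v => D v - nb A21 M v)
    (hQM 0) (hQM 2) (hQd 0 2 (by norm_num)) s hs (hQc 2 (by norm_num))
    (fun x hx => le_trans (Nat.sub_le _ _) (le_trans (hDt x (hQM 0 hx)) hts.le))
  have hlt1 : (∑ v ∈ Q 0, (D v - nb A21 M v)) / s < s := by
    refine lt_of_le_of_lt ?_ hts
    apply Nat.div_le_of_le_mul
    have : ∑ v ∈ Q 0, (D v - nb A21 M v) ≤ (Q 0).card • t := by
      apply Finset.sum_le_card_nsmul
      intro x hx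
      exact le_trans (Nat.sub_le _ _) (hDt x (hQM 0 hx))
    rw [hQc 0 (by norm_num), smul_eq_mul] at this
    exact this
  have hlt2 : (∑ v ∈ Q 3, (D v - nb R34 M v)) / s < s := by
    refine lt_of_le_of_lt ?_ hts
    apply Nat.div_le_of_le_mul
    have : ∑ v ∈ Q 3, (D v - nb R34 M v) ≤ (Q 3).card • t := by
      apply Finset.sum_le_card_nsmul
      intro x hx
      exact le_trans (Nat.sub_le _ _) (hDt x (hQM 3 hx))
    rw [hQc 3 (by norm_num), smul_eq_mul] at this
    exact this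
  obtain ⟨R33, a33, b33, d33⟩ := TGR_reg hR M (Q 2) _ (hQM 2)
    (by rw [hQc 2 (by norm_num)]; exact hev) (by rw [hQc 2 (by norm_num)]; exact hlt1)
  obtain ⟨A22, a22, b22, d22⟩ := TGR_reg hR M (Q 1) _ (hQM 1)
    (by rw [hQc 1 (by norm_num)]; exact hev) (by rw [hQc 1 (by norm_num)]; exact hlt2)
  -- the start graph
  obtain ⟨T0, hT0⟩ : ∃ T0 : SimpleGraph X, ∀ x y, T0.Adj x y ↔
      (x ∈ M ∧ y ∈ M ∧ x ≠ y ∧ 4 * s ≤ ρ x + ρ y + 1) := by
    refine ⟨⟨fun x y => x ∈ M ∧ y ∈ M ∧ x ≠ y ∧ 4 * s ≤ ρ x + ρ y + 1, ?_, ?_⟩,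
      fun x y => Iff.rfl⟩
    · refine ⟨?_⟩
      rintro x y ⟨h1, h2, h3, h4⟩
      exact ⟨h2, h1, h3.symm, by omega⟩
    · exact ⟨fun x h => h.2.2.1 rfl⟩
  have hdeg0 : ∀ z ∈ M, nb T0 M z = if ρ z < 2 * s then ρ z + 1 else ρ z := by
    intro z hz
    have h1 := TGR_card_img M (4 * s) ρ hM hlt hinj (fun r => 4 * s ≤ ρ z + r + 1)
    rw [TGR_T0deg (4 * s) (ρ z) (hlt z hz)] at h1
    split_ifs with h
    · rw [← h1]
      unfold nb
      congr 1
      ext y
      simp only [Finset.mem_filter, hT0]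
      constructor
      · rintro ⟨h2, h3⟩
        exact ⟨h2, h3.2.2.2⟩
      · rintro ⟨h2, h3⟩
        refine ⟨h2, hz, h2, ?_, h3⟩
        rintro rfl
        omega
    · have h2 : z ∈ M.filter (fun y => 4 * s ≤ ρ z + ρ y + 1) := by
        rw [Finset.mem_filter]
        exact ⟨hz, by omega⟩
      have h3 : nb T0 M z = ((M.filter (fun y => 4 * s ≤ ρ z + ρ y + 1)).erase z).card := by
        unfold nb
        congr 1
        ext y
        simp only [Finset.mem_filter, hT0, Finset.mem_erase]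
        constructor
        · rintro ⟨h2, h3⟩
          exact ⟨h3.2.2.1.symm, h2, h3.2.2.2⟩
        · rintro ⟨h2, h3, h4⟩
          exact ⟨h3, hz, h3, h2.symm, h4⟩
      rw [h3, Finset.card_erase_of_mem h2, h1]
      omega
  obtain ⟨T, hT⟩ : ∃ T : SimpleGraph X, ∀ x y, T.Adj x y ↔
      ((T0.Adj x y ∧ ¬ R34.Adj x y ∧ ¬ R42.Adj x y ∧ ¬ R33.Adj x y) ∨ A21.Adj x y ∨
        A13.Adj x y ∨ A22.Adj x y) := by
    refine ⟨⟨fun x y => (T0.Adj x y ∧ ¬ R34.Adj x y ∧ ¬ R42.Adj x y ∧ ¬ R33.Adj x y) ∨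
      A21.Adj x y ∨ A13.Adj x y ∨ A22.Adj x y, ?_, ?_⟩, fun x y => Iff.rfl⟩
    · refine ⟨?_⟩
      intro x y h
      rw [T0.adj_comm, R34.adj_comm, R42.adj_comm, R33.adj_comm, A21.adj_comm, A13.adj_comm,
        A22.adj_comm]
      exact h
    · refine ⟨fun x h => ?_⟩
      rcases h with h | h | h | h
      · exact T0.loopless.irrefl x h.1
      · exact A21.loopless.irrefl x h
      · exact A13.loopless.irrefl x h
      · exact A22.loopless.irrefl x h
  refine ⟨T, ?_, ?_⟩
  · intro x y h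
    rw [hT] at h
    rcases h with h | h | h | h
    · rw [hT0] at h
      exact ⟨h.1.1, h.1.2.1⟩
    · rcases a21 x y h with h' | h'
      · exact ⟨hQM _ h'.1, hQM _ h'.2⟩
      · exact ⟨hQM _ h'.1, hQM _ h'.2⟩
    · rcases a13 x y h with h' | h'
      · exact ⟨hQM _ h'.1, hQM _ h'.2⟩
      · exact ⟨hQM _ h'.1, hQM _ h'.2⟩
    · exact ⟨hQM _ (a22 x y h).1, hQM _ (a22 x y h).2⟩
  · intro z hz
    -- the degree identity
    have hid : nb T M z + (nb R34 M z + nb R42 M z + nb R33 M z) =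
        nb T0 M z + (nb A21 M z + nb A13 M z + nb A22 M z) := by
      simp only [TGR_nb_sum]
      simp only [← Finset.sum_add_distrib]
      apply Finset.sum_congr rfl
      intro y hy
      simp only [hT]
      have k34 : R34.Adj z y → (ρ z / s = 2 ∧ ρ y / s = 3) ∨ (ρ z / s = 3 ∧ ρ y / s = 2) := by
        intro h
        rcases a34 z y h with h' | h'
        · exact Or.inl ⟨((hQm _ _).1 h'.1).2, ((hQm _ _).1 h'.2).2⟩
        · exact Or.inr ⟨((hQm _ _).1 h'.1).2, ((hQm _ _).1 h'.2).2⟩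
      have k42 : R42.Adj z y → (ρ z / s = 3 ∧ ρ y / s = 1) ∨ (ρ z / s = 1 ∧ ρ y / s = 3) := by
        intro h
        rcases a42 z y h with h' | h'
        · exact Or.inl ⟨((hQm _ _).1 h'.1).2, ((hQm _ _).1 h'.2).2⟩
        · exact Or.inr ⟨((hQm _ _).1 h'.1).2, ((hQm _ _).1 h'.2).2⟩
      have k33 : R33.Adj z y → (ρ z / s = 2 ∧ ρ y / s = 2) ∧ z ≠ y := by
        intro h
        have h' := a33 z y h
        exact ⟨⟨((hQm _ _).1 h'.1).2, ((hQm _ _).1 h'.2).2⟩, h.ne⟩
      have k21 : A21.Adj z y → (ρ z / s = 1 ∧ ρ y / s = 0) ∨ (ρ z / s = 0 ∧ ρ y / s = 1) := by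
        intro h
        rcases a21 z y h with h' | h'
        · exact Or.inl ⟨((hQm _ _).1 h'.1).2, ((hQm _ _).1 h'.2).2⟩
        · exact Or.inr ⟨((hQm _ _).1 h'.1).2, ((hQm _ _).1 h'.2).2⟩
      have k13 : A13.Adj z y → (ρ z / s = 0 ∧ ρ y / s = 2) ∨ (ρ z / s = 2 ∧ ρ y / s = 0) := by
        intro h
        rcases a13 z y h with h' | h'
        · exact Or.inl ⟨((hQm _ _).1 h'.1).2, ((hQm _ _).1 h'.2).2⟩
        · exact Or.inr ⟨((hQm _ _).1 h'.1).2, ((hQm _ _).1 h'.2).2⟩
      have k22 : A22.Adj z y → (ρ z / s = 1 ∧ ρ y / s = 1) := by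
        intro h
        have h' := a22 z y h
        exact ⟨((hQm _ _).1 h'.1).2, ((hQm _ _).1 h'.2).2⟩
      have bz := (TGR_div_iff s (ρ z / s) (ρ z) hs).1 rfl
      have bY := (TGR_div_iff s (ρ y / s) (ρ y) hs).1 rfl
      -- values of T0
      have t1 : ∀ i j : ℕ, ρ z / s = i → ρ y / s = j → 4 ≤ i + j → z ≠ y → T0.Adj z y := by
        intro i j hi hj hij hne
        rw [hT0]
        refine ⟨hz, hy, hne, ?_⟩
        rw [hi] at bz
        rw [hj] at bY
        have h1 : 4 * s ≤ (i + j) * s := Nat.mul_le_mul_right s hij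
        rw [Nat.add_mul] at h1
        omega
      have t2 : ∀ i j : ℕ, ρ z / s = i → ρ y / s = j → i + j ≤ 2 → ¬ T0.Adj z y := by
        intro i j hi hj hij h
        rw [hT0] at h
        have h4 := h.2.2.2
        rw [hi] at bz
        rw [hj] at bY
        have h1 : (i + 1 + (j + 1)) * s ≤ 4 * s := Nat.mul_le_mul_right s (by omega)
        rw [Nat.add_mul] at h1
        omega
      apply TGR_ind
      · intro h
        rcases k34 h with h' | h'
        · exact t1 _ _ h'.1 h'.2 (by norm_num) h.ne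
        · exact t1 _ _ h'.1 h'.2 (by norm_num) h.ne
      · intro h
        rcases k42 h with h' | h'
        · exact t1 _ _ h'.1 h'.2 (by norm_num) h.ne
        · exact t1 _ _ h'.1 h'.2 (by norm_num) h.ne
      · intro h
        exact t1 _ _ (k33 h).1.1 (k33 h).1.2 (by norm_num) h.ne
      · rintro ⟨h, h'⟩
        have := k34 h
        have := k42 h'
        omega
      · rintro ⟨h, h'⟩
        have := k34 h
        have := (k33 h').1
        omega
      · rintro ⟨h, h'⟩
        have := k42 h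
        have := (k33 h').1
        omega
      · intro h
        rcases k21 h with h' | h'
        · exact t2 _ _ h'.1 h'.2 (by norm_num)
        · exact t2 _ _ h'.1 h'.2 (by norm_num)
      · intro h
        rcases k13 h with h' | h'
        · exact t2 _ _ h'.1 h'.2 (by norm_num)
        · exact t2 _ _ h'.1 h'.2 (by norm_num)
      · intro h
        exact t2 _ _ (k22 h).1 (k22 h).2 (by norm_num)
      · rintro ⟨h, h'⟩
        have := k21 h
        have := k13 h'
        omega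
      · rintro ⟨h, h'⟩
        have := k21 h
        have := k22 h'
        omega
      · rintro ⟨h, h'⟩
        have := k13 h
        have := k22 h'
        omega
    rw [hdeg0 z hz] at hid
    have hnot : ∀ i j, i ≠ j → z ∈ Q i → z ∉ Q j := fun i j hij hi =>
      Finset.disjoint_left.1 (hQd i j hij) hi
    have hcase : z ∈ Q 0 ∨ z ∈ Q 1 ∨ z ∈ Q 2 ∨ z ∈ Q 3 := by
      have hc4 := hcls z hz
      have h0 := hQm 0 z
      have h1 := hQm 1 z
      have h2 := hQm 2 z
      have h3 := hQm 3 z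
      generalize ρ z / s = r at hc4 h0 h1 h2 h3
      rcases (show r = 0 ∨ r = 1 ∨ r = 2 ∨ r = 3 by omega) with
        h | h | h | h
      · exact Or.inl (h0.2 ⟨hz, h⟩)
      · exact Or.inr (Or.inl (h1.2 ⟨hz, h⟩))
      · exact Or.inr (Or.inr (Or.inl (h2.2 ⟨hz, h⟩)))
      · exact Or.inr (Or.inr (Or.inr (h3.2 ⟨hz, h⟩)))
    rcases hcase with h | h | h | h
    · -- first quartile
      have hb := hk 0 z h
      have hr : ρ z < 2 * s := by omega
      rw [d34 z (hnot 0 2 (by norm_num) h) (hnot 0 3 (by norm_num) h),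
        d42 z (hnot 0 3 (by norm_num) h) (hnot 0 1 (by norm_num) h),
        d33 z (hnot 0 2 (by norm_num) h), d22 z (hnot 0 1 (by norm_num) h), b13 z h,
        if_pos hr] at hid
      have h1 := e21 z h
      have h2 := hDneg z hz (by omega)
      right
      omega
    · -- second quartile
      have hb := hk 1 z h
      have hr : ρ z < 2 * s := by omega
      rw [d34 z (hnot 1 2 (by norm_num) h) (hnot 1 3 (by norm_num) h),
        d33 z (hnot 1 2 (by norm_num) h), b21 z h, b22 z h,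
        d13 z (hnot 1 0 (by norm_num) h) (hnot 1 2 (by norm_num) h),
        if_pos hr] at hid
      have h1 := c42 z h
      have h2 := hDneg z hz (by omega)
      rcases h1 with h1 | h1
      · right
        omega
      · left
        omega
    · -- third quartile
      have hb := hk 2 z h
      have hr : ¬ ρ z < 2 * s := by omega
      rw [b34 z h, b33 z h, d42 z (hnot 2 3 (by norm_num) h) (hnot 2 1 (by norm_num) h),
        d21 z (hnot 2 1 (by norm_num) h) (hnot 2 0 (by norm_num) h),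
        d22 z (hnot 2 1 (by norm_num) h), if_neg hr] at hid
      have h1 := c13 z h
      have h2 := hDpos z hz (by omega)
      rcases h1 with h1 | h1
      · left
        omega
      · right
        omega
    · -- fourth quartile
      have hb := hk 3 z h
      have hr : ¬ ρ z < 2 * s := by omega
      rw [b42 z h, d33 z (hnot 3 2 (by norm_num) h),
        d21 z (hnot 3 1 (by norm_num) h) (hnot 3 0 (by norm_num) h),
        d13 z (hnot 3 0 (by norm_num) h) (hnot 3 2 (by norm_num) h),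
        d22 z (hnot 3 1 (by norm_num) h), if_neg hr] at hid
      have h1 := e34 z h
      have h2 := hDpos z hz (by omega)
      left
      omega

end Pool.Agent.H65.HV
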